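import Mathlib

/-!
# MP_52c3fe_co, Q1: the designs `D_{g,h}` and `TD_h` can have different 2-ranks

We exhibit, for `m = 8`, two bent functions `g, h` of Maiorana–McFarland type with `g + h` bent and
`(g+h)^* = g^* + h^*`, for which the incidence matrices of `D_{g,h}` and of the translation design
`TD_h` have different ranks over `F_2`.

Write `F_2^8 = F_2^4 × F_2^4`, `g (x, y) = x · y`, `h (x, y) = x · π y`, where `π` is a permutation
of `F_2^4` with `π³ = id` and `π² y = y + π y`.  The function `g` and the constant `1` are sums of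
an even number of translates of `h`, and this makes the rank drop by one.
-/

namespace Pool.Agent.Results.MP_52c3fe_co.RankGap

/-- The standard dot product on `F_2^m`. -/
def dot {m : ℕ} (x y : Fin m → ZMod 2) : ZMod 2 := ∑ i, x i * y i

/-- The sign `(-1)^a` of an element `a` of `F_2`. -/
def sgn (a : ZMod 2) : ℤ := if a = 0 then 1 else -1

/-- The Walsh transform `W_f(u) = ∑_x (-1)^(f x + u · x)`. -/
def walsh {m : ℕ} (f : (Fin m → ZMod 2) → ZMod 2) (u : Fin m → ZMod 2) : ℤ :=
  ∑ x, sgn (f x + dot u x)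

/-- `f` is bent: `|W_f(u)| = 2^(m/2)` for all `u` (used for even `m`). -/
def IsBent {m : ℕ} (f : (Fin m → ZMod 2) → ZMod 2) : Prop :=
  ∀ u, |walsh f u| = 2 ^ (m / 2)

/-- `f'` is the dual of `f`: `W_f(u) = 2^(m/2) (-1)^(f' u)` for all `u`. -/
def IsDual {m : ℕ} (f f' : (Fin m → ZMod 2) → ZMod 2) : Prop :=
  ∀ u, walsh f u = 2 ^ (m / 2) * sgn (f' u)

/-- The incidence matrix `M = (g b + h (x + b) + (g + h) x)_{b, x}` of `D_{g,h}`. -/
def matD {m : ℕ} (g h : (Fin m → ZMod 2) → ZMod 2) :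
    Matrix (Fin m → ZMod 2) (Fin m → ZMod 2) (ZMod 2) :=
  Matrix.of fun b x => g b + h (x + b) + (g + h) x

/-- The incidence matrix `N = (h (x + y))_{x, y}` of the translation design `TD_h`. -/
def matTD {m : ℕ} (h : (Fin m → ZMod 2) → ZMod 2) :
    Matrix (Fin m → ZMod 2) (Fin m → ZMod 2) (ZMod 2) :=
  Matrix.of fun x y => h (x + y)

/-! ### The example -/

abbrev V4 := Fin 4 → ZMod 2
abbrev V8 := Fin 8 → ZMod 2

/-- first half -/
def lo (x : V8) : V4 := fun i => x (Fin.castAdd 4 i)
/-- second half -/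
def hi (x : V8) : V4 := fun i => x (Fin.natAdd 4 i)

/-- The permutation `π` of `F_2^4`. -/
def pi (y : V4) : V4 :=
  ![y 0 + y 0*y 1 + y 2 + y 0*y 2 + y 3 + y 0*y 3 + y 0*y 1*y 3 + y 0*y 2*y 3,
    y 0 + y 1 + y 0*y 1 + y 2 + y 0*y 1*y 2 + y 1*y 3 + y 0*y 1*y 3 + y 1*y 2*y 3,
    y 0 + y 1 + y 1*y 2 + y 3 + y 2*y 3 + y 0*y 2*y 3 + y 1*y 2*y 3,
    y 1 + y 2 + y 2*y 3 + y 0*y 2*y 3]

/-- The Maiorana–McFarland function of a map `s`. -/
def mm (s : V4 → V4) (x : V8) : ZMod 2 := dot (lo x) (s (hi x))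

def g : V8 → ZMod 2 := mm id
def h : V8 → ZMod 2 := mm pi

set_option maxRecDepth 100000 in
lemma pi_pi_pi : ∀ y : V4, pi (pi (pi y)) = y := by decide

set_option maxRecDepth 100000 in
lemma pi_pi : ∀ y : V4, pi (pi y) = y + pi y := by decide

set_option maxRecDepth 100000 in
lemma pi_sum : ∀ y : V4, pi (y + ![1,0,0,0]) + pi (y + ![0,1,0,0]) + pi (y + ![0,1,1,0])
    + pi (y + ![1,1,1,0]) + pi (y + ![0,0,1,1]) + pi (y + ![0,1,1,1]) = y := by decide

set_option maxRecDepth 100000 in
lemma pi_one : ∀ y : V4, (pi y) 0 + (pi (y + ![0,1,1,0])) 0 = 1 := by decide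

lemma sgn_add (a b : ZMod 2) : sgn (a + b) = sgn a * sgn b := by
  revert a b; decide

set_option maxRecDepth 100000 in
lemma char_sum : ∀ w : V4, ∑ x : V4, sgn (dot x w) = if w = 0 then 16 else 0 := by decide


lemma dot_comm4 (x y : V4) : dot x y = dot y x := by
  simp [dot, mul_comm]

lemma dot_add4 (x y z : V4) : dot x (y + z) = dot x y + dot x z := by
  simp [dot, mul_add, Finset.sum_add_distrib]

lemma add_dot4 (x y z : V4) : dot (x + y) z = dot x z + dot y z := by
  simp [dot, add_mul, Finset.sum_add_distrib]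

lemma dot_append (u : V8) (a b : V4) :
    dot u (Fin.append a b : Fin (4 + 4) → ZMod 2) = dot (lo u) a + dot (hi u) b := by
  unfold dot
  rw [show (Finset.univ : Finset (Fin 8)) = (Finset.univ : Finset (Fin (4 + 4))) from rfl,
    Fin.sum_univ_add]
  refine congrArg₂ (· + ·) (Finset.sum_congr rfl fun i _ => ?_)
    (Finset.sum_congr rfl fun i _ => ?_)
  · rw [Fin.append_left]; rfl
  · rw [Fin.append_right]; rfl

lemma lo_append (a b : V4) : lo (Fin.append a b : Fin (4 + 4) → ZMod 2) = a := by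
  funext i; exact Fin.append_left a b i

lemma hi_append (a b : V4) : hi (Fin.append a b : Fin (4 + 4) → ZMod 2) = b := by
  funext i; exact Fin.append_right a b i

lemma add_eq_zero4 (a b : V4) : a + b = 0 ↔ a = b := by
  constructor
  · intro hh
    have : a = -b := eq_neg_of_add_eq_zero_left hh
    rw [this]; funext i; simp [ZMod.neg_eq_self_mod_two]
  · rintro rfl
    funext i; simp [CharTwo.add_self_eq_zero]

/-- The Walsh transform of a Maiorana–McFarland function. -/
lemma walsh_mm (s t : V4 → V4) (hst : ∀ y, s (t y) = y) (hts : ∀ y, t (s y) = y) (u : V8) :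
    walsh (mm s) u = 16 * sgn (dot (hi u) (t (lo u))) := by
  unfold walsh
  have e := (Fin.appendEquiv (α := ZMod 2) 4 4).sum_comp
    (fun x : Fin (4 + 4) → ZMod 2 => sgn (mm s x + dot u x))
  refine Eq.trans e.symm ?_
  rw [Fintype.sum_prod_type_right]
  have key : ∀ b : V4, ∑ a : V4, sgn (mm s (Fin.appendEquiv (α := ZMod 2) 4 4 (a, b)) +
      dot u (Fin.appendEquiv (α := ZMod 2) 4 4 (a, b)))
      = if b = t (lo u) then 16 * sgn (dot (hi u) b) else 0 := by
    intro b
    have h1 : ∀ a : V4, sgn (mm s (Fin.appendEquiv (α := ZMod 2) 4 4 (a, b)) +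
      dot u (Fin.appendEquiv (α := ZMod 2) 4 4 (a, b)))
        = sgn (dot a (s b + lo u)) * sgn (dot (hi u) b) := by
      intro a
      have h2 : (Fin.appendEquiv (α := ZMod 2) 4 4 (a, b)) = Fin.append a b := rfl
      rw [h2]
      unfold mm
      rw [dot_append, lo_append, hi_append, ← sgn_add, dot_add4, dot_comm4 (lo u) a]
      ring_nf
    rw [Finset.sum_congr rfl (fun a _ => h1 a), ← Finset.sum_mul, char_sum]
    by_cases hb : b = t (lo u)
    · have : s b + lo u = 0 := by
        rw [add_eq_zero4, hb, hst]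
      simp [hb, hst, (add_eq_zero4 (lo u) (lo u)).2 rfl]
    · have : ¬ (s b + lo u = 0) := by
        rw [add_eq_zero4]
        intro h3
        exact hb (by rw [← h3, hts])
      simp [hb, this]
  rw [Finset.sum_congr rfl (fun b _ => key b)]
  simp


lemma add_self4 (a : V4) : a + a = 0 := (add_eq_zero4 a a).2 rfl

lemma mm_isBent (s t : V4 → V4) (hst : ∀ y, s (t y) = y) (hts : ∀ y, t (s y) = y) :
    IsBent (mm s) := by
  intro u
  rw [walsh_mm s t hst hts]
  unfold sgn
  split_ifs <;> norm_num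

lemma mm_isDual (s t : V4 → V4) (hst : ∀ y, s (t y) = y) (hts : ∀ y, t (s y) = y) :
    IsDual (mm s) (fun u => dot (hi u) (t (lo u))) := by
  intro u
  rw [walsh_mm s t hst hts]
  norm_num

lemma g_add_h : g + h = mm (fun y => pi (pi y)) := by
  funext x
  simp only [g, h, mm, Pi.add_apply, id, pi_pi, dot_add4]

lemma pi4 (y : V4) : pi (pi (pi (pi y))) = pi y := pi_pi_pi _

/-- the embedding of `F_2^4` as the second half -/
def e2 (b : V4) : V8 := (Fin.append (0 : V4) b : Fin (4 + 4) → ZMod 2)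

def e12 (a b : V4) : V8 := (Fin.append a b : Fin (4 + 4) → ZMod 2)

lemma lo_add (x y : V8) : lo (x + y) = lo x + lo y := rfl
lemma hi_add (x y : V8) : hi (x + y) = hi x + hi y := rfl

lemma h_shift (x : V8) (a b : V4) :
    h (e12 a b + x) = dot (lo x) (pi (hi x + b)) + dot a (pi (hi x + b)) := by
  unfold h mm e12
  rw [lo_add, hi_add, lo_append, hi_append, add_dot4, add_comm b, add_comm]

/-- `g` is a sum of six translates of `h`. -/
lemma g_eq (x : V8) : g x = h (e12 0 ![1,0,0,0] + x) + h (e12 0 ![0,1,0,0] + x)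
    + h (e12 0 ![0,1,1,0] + x) + h (e12 0 ![1,1,1,0] + x) + h (e12 0 ![0,0,1,1] + x)
    + h (e12 0 ![0,1,1,1] + x) := by
  have h0 : ∀ z : V4, dot 0 z = 0 := by intro z; simp [dot]
  simp only [h_shift, h0, add_zero]
  rw [← dot_add4, ← dot_add4, ← dot_add4, ← dot_add4, ← dot_add4, pi_sum]
  rfl

/-- `1` is a sum of four translates of `h`. -/
lemma one_eq (x : V8) : (1 : ZMod 2) = h (e12 0 0 + x) + h (e12 ![1,0,0,0] 0 + x)
    + h (e12 0 ![0,1,1,0] + x) + h (e12 ![1,0,0,0] ![0,1,1,0] + x) := by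
  have h0 : ∀ z : V4, dot 0 z = 0 := by intro z; simp [dot]
  have h1 : ∀ z : V4, dot ![1,0,0,0] z = z 0 := by
    intro z; simp [dot, Fin.sum_univ_four]
  simp only [h_shift, h0, h1, add_zero]
  refine (pi_one (hi x)).symm.trans ?_
  generalize dot (lo x) (pi (hi x)) = A
  generalize dot (lo x) (pi (hi x + ![0,1,1,0])) = B
  generalize (pi (hi x)) 0 = C
  generalize (pi (hi x + ![0,1,1,0])) 0 = D
  revert A B C D
  decide


/-- vectors killed by `N` -/
lemma ker_le (w : V8 → ZMod 2) (hw : (matTD h).mulVec w = 0) : (matD g h).mulVec w = 0 := by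
  have hN : ∀ b : V8, ∑ x, h (b + x) * w x = 0 := by
    intro b
    have := congrFun hw b
    simpa [Matrix.mulVec, dotProduct, matTD] using this
  have hN' : ∀ b : V8, ∑ x, h (x + b) * w x = 0 := by
    intro b
    rw [← hN b]
    exact Finset.sum_congr rfl fun x _ => by rw [add_comm]
  have h1 : ∑ x : V8, w x = 0 := by
    have : ∀ x : V8, w x = h (e12 0 0 + x) * w x + h (e12 ![1,0,0,0] 0 + x) * w x
        + h (e12 0 ![0,1,1,0] + x) * w x + h (e12 ![1,0,0,0] ![0,1,1,0] + x) * w x := by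
      intro x
      rw [← add_mul, ← add_mul, ← add_mul, ← one_eq, one_mul]
    rw [Finset.sum_congr rfl fun x _ => this x]
    simp only [Finset.sum_add_distrib, hN, add_zero]
  have hg : ∑ x : V8, g x * w x = 0 := by
    have : ∀ x : V8, g x * w x = h (e12 0 ![1,0,0,0] + x) * w x + h (e12 0 ![0,1,0,0] + x) * w x
        + h (e12 0 ![0,1,1,0] + x) * w x + h (e12 0 ![1,1,1,0] + x) * w x
        + h (e12 0 ![0,0,1,1] + x) * w x + h (e12 0 ![0,1,1,1] + x) * w x := by
      intro x
      rw [g_eq]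
      ring
    rw [Finset.sum_congr rfl fun x _ => this x]
    simp only [Finset.sum_add_distrib, hN, add_zero]
  have hh : ∑ x : V8, h x * w x = 0 := by
    have := hN 0
    simpa using this
  funext b
  have : ∀ x : V8, (g b + h (x + b) + (g + h) x) * w x
      = g b * w x + h (x + b) * w x + g x * w x + h x * w x := by
    intro x
    simp only [Pi.add_apply]
    ring
  simp only [Matrix.mulVec, dotProduct, matD, Matrix.of_apply, Pi.zero_apply]
  rw [Finset.sum_congr rfl fun x _ => this x]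
  simp only [Finset.sum_add_distrib, ← Finset.mul_sum, h1, hg, hh, hN', mul_zero, add_zero]

/-- a vector killed by `M` but not by `N` -/
def vE : V8 → ZMod 2 := Pi.single (e12 0 0) 1 + Pi.single (e12 ![1,0,0,0] 0) 1
    + Pi.single (e12 0 ![0,1,1,0]) 1 + Pi.single (e12 ![1,0,0,0] ![0,1,1,0]) 1

lemma N_vE : (matTD h).mulVec vE = fun _ => 1 := by
  funext b
  unfold vE
  rw [Matrix.mulVec_add, Matrix.mulVec_add, Matrix.mulVec_add]
  simp only [Matrix.mulVec_single_one, Pi.add_apply, Matrix.col_apply, matTD, Matrix.of_apply]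
  refine Eq.trans ?_ (one_eq b).symm
  simp only [add_comm b]

lemma M_vE : (matD g h).mulVec vE = 0 := by
  funext b
  unfold vE
  rw [Matrix.mulVec_add, Matrix.mulVec_add, Matrix.mulVec_add]
  simp only [Matrix.mulVec_single_one, Pi.add_apply, Matrix.col_apply, matD, Matrix.of_apply,
    Pi.zero_apply]
  have h1 := one_eq b
  have h2 := one_eq 0
  simp only [add_zero] at h2
  have g1 : g (e12 0 0) = 0 := by simp [g, mm, e12, lo_append, hi_append, dot]
  have g2 : g (e12 ![1,0,0,0] 0) = 0 := by simp [g, mm, e12, lo_append, hi_append, dot]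
  have g3 : g (e12 0 ![0,1,1,0]) = 0 := by simp [g, mm, e12, lo_append, hi_append, dot]
  have g4 : g (e12 ![1,0,0,0] ![0,1,1,0]) = 0 := by
    simp [g, mm, e12, lo_append, hi_append, dot, Fin.sum_univ_four]
  rw [g1, g2, g3, g4]
  revert h1 h2
  generalize g b = G
  generalize h (e12 0 0 + b) = A
  generalize h (e12 ![1,0,0,0] 0 + b) = B
  generalize h (e12 0 ![0,1,1,0] + b) = C
  generalize h (e12 ![1,0,0,0] ![0,1,1,0] + b) = D
  generalize h (e12 0 0) = A'
  generalize h (e12 ![1,0,0,0] 0) = B'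
  generalize h (e12 0 ![0,1,1,0]) = C'
  generalize h (e12 ![1,0,0,0] ![0,1,1,0]) = D'
  intro h1 h2
  have hG : G + G = 0 := CharTwo.add_self_eq_zero G
  have e1 : (1 : ZMod 2) + 1 = 0 := rfl
  linear_combination (-1 : ZMod 2) * h1 + (-1 : ZMod 2) * h2 + 2 * hG + e1

theorem result :
    ∃ (m : ℕ) (g h g' h' : (Fin m → ZMod 2) → ZMod 2), Even m ∧ 0 < m ∧
      IsBent g ∧ IsBent h ∧ IsBent (g + h) ∧
      IsDual g g' ∧ IsDual h h' ∧ IsDual (g + h) (g' + h') ∧
      (matD g h).rank ≠ (matTD h).rank := by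
  refine ⟨8, g, h, fun u => dot (hi u) (id (lo u)), fun u => dot (hi u) (pi (pi (lo u))),
    ⟨4, rfl⟩, by norm_num, ?_, ?_, ?_, ?_, ?_, ?_, ?_⟩
  · exact mm_isBent id id (fun _ => rfl) (fun _ => rfl)
  · exact mm_isBent pi (fun y => pi (pi y)) pi_pi_pi pi_pi_pi
  · rw [g_add_h]
    exact mm_isBent (fun y => pi (pi y)) pi pi_pi_pi pi_pi_pi
  · exact mm_isDual id id (fun _ => rfl) (fun _ => rfl)
  · exact mm_isDual pi (fun y => pi (pi y)) pi_pi_pi pi_pi_pi
  · rw [g_add_h]
    have := mm_isDual (fun y => pi (pi y)) pi pi_pi_pi pi_pi_pi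
    intro u
    rw [this u]
    congr 2
    simp only [Pi.add_apply, ← dot_add4, id]
    rw [pi_pi, ← add_assoc, add_self4, zero_add]
  · have h1 := LinearMap.finrank_range_add_finrank_ker (matD g h).mulVecLin
    have h2 := LinearMap.finrank_range_add_finrank_ker (matTD h).mulVecLin
    have hlt : LinearMap.ker (matTD h).mulVecLin < LinearMap.ker (matD g h).mulVecLin := by
      refine lt_of_le_of_ne ?_ ?_
      · intro w hw
        rw [LinearMap.mem_ker, Matrix.mulVecLin_apply] at hw ⊢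
        exact ker_le w hw
      · intro heq
        have hv : vE ∈ LinearMap.ker (matD g h).mulVecLin := by
          rw [LinearMap.mem_ker, Matrix.mulVecLin_apply]
          exact M_vE
        rw [← heq, LinearMap.mem_ker, Matrix.mulVecLin_apply, N_vE] at hv
        exact one_ne_zero (congrFun hv 0)
    have h3 := Submodule.finrank_lt_finrank_of_lt hlt
    unfold Matrix.rank
    omega

end Pool.Agent.Results.MP_52c3fe_co.RankGap
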